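import Pool.Agent.helper96.SV.SpecA
import Pool.Agent.helper25.SV.FIN
import Pool.Agent.helper93.SV.K23

/-!
# Project sv: the explicit final statement

For every `d ∈ ℤ^k`: either `1 ≤ d i < (N+1)^5` for all `i` (`N = ∑ n i`), or `O(d)` is special
exactly according to the explicit list `CritZ`.
-/

set_option autoImplicit false

namespace Pool.Agent.SV

open MvPolynomial Module

/-- the explicit final statement -/
def ALE_stmt : Prop :=
  ∀ (k : ℕ) (n : Fin k → ℕ), 2 ≤ k → (∀ i, 1 ≤ n i) → ∀ d : Fin k → ℤ,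
    ((∀ i, 1 ≤ d i) ∧ ∀ i, d i < (∑ i, (n i : ℤ) + 1) ^ 5) ∨ (SpecialZ n d ↔ CritZ n d)

/-- explicit form of FIN -/
theorem ALE_fix (hT : THR_stmt) (k : ℕ) (n : Fin k → ℕ) (hk : 2 ≤ k) (hn : ∀ i, 1 ≤ n i)
    (d : Fin k → ℕ) (hd : ∀ i, 1 ≤ d i) (l : Fin k) (hl : 3 * (∑ i, n i + 1) ^ 3 + 1 < d l)
    (hf1 : ¬ ∃ l, n l = 1 ∧ ∀ i, i ≠ l → d i = 1)
    (hf2 : ¬ (k = 2 ∧ ∃ l, n l = 1 ∧ ∀ i, i ≠ l → d i = 2)) : ¬ Special n d := by
  intro hS
  set N := ∑ i, n i with hN
  have hl' : 3 * (N + 1) ^ 3 + 1 < d l := hl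
  have hpos : 1 ≤ (N + 1) ^ 3 := Nat.one_le_pow _ _ (by omega)
  have key := fun j => hT k n d hk hn hd j
  have c1 : ∀ j, j ≠ l → d j < 3 := by
    intro j hjl
    by_contra h3
    push Not at h3
    refine key j (Or.inl ⟨h3, ?_⟩) hS
    have h4 := FIN_hj n d hn hd j l hjl.symm
    rw [← hN]
    omega
  have c2 : ∀ j, j ≠ l → d j ≠ 2 := by
    intro j hjl h2
    have hsum : n j + ∑ i ∈ Finset.univ.erase j, n i = N := by
      rw [hN, Finset.add_sum_erase _ _ (Finset.mem_univ j)]
    have hcard : k - 1 ≤ ∑ i ∈ Finset.univ.erase j, n i := by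
      have h5 : (Finset.univ.erase j).card = k - 1 := by
        rw [Finset.card_erase_of_mem (Finset.mem_univ j), Finset.card_univ, Fintype.card_fin]
      rw [← h5, Finset.card_eq_sum_ones]
      exact Finset.sum_le_sum (fun i _ => hn i)
    have hnl : n l ≤ ∑ i ∈ Finset.univ.erase j, n i :=
      Finset.single_le_sum (f := n) (fun i _ => Nat.zero_le _)
        (Finset.mem_erase.mpr ⟨hjl.symm, Finset.mem_univ _⟩)
    by_cases hx : 2 ≤ N - n j
    · refine key j (Or.inr ⟨h2, ?_⟩) hS
      rw [← hN]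
      have h4 := FIN_hj n d hn hd j l hjl.symm
      have h5 : N - n j + 1 ≤ 3 * (N - n j - 1) := by omega
      calc (N - n j + 1) * (N + 1) ^ 3 ≤ 3 * (N - n j - 1) * (N + 1) ^ 3 :=
            Nat.mul_le_mul_right _ h5
        _ = (N - n j - 1) * (3 * (N + 1) ^ 3) := by ring
        _ ≤ (N - n j - 1) * hj n d j := Nat.mul_le_mul_left _ (by omega)
    · have hk2 : k = 2 := by omega
      have hn1 : n l = 1 := by
        have := hn l
        omega
      subst hk2
      refine hf2 ⟨rfl, l, hn1, ?_⟩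
      intro i hi
      have hij : i = j := by
        apply Fin.ext
        have h6 := i.2
        have h7 := j.2
        have h8 := l.2
        have h9 : i.val ≠ l.val := fun h => hi (Fin.ext h)
        have h10 : j.val ≠ l.val := fun h => hjl (Fin.ext h)
        omega
      rw [hij, h2]
  have c3 : ∀ i, i ≠ l → d i = 1 := by
    intro i hi
    have h1 := c1 i hi
    have h2 := c2 i hi
    have h3 := hd i
    omega
  by_cases hnl : n l = 1
  · exact hf1 ⟨l, hnl, c3⟩
  · have h2 : 2 ≤ n l := by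
      have := hn l
      omega
    refine key l (Or.inl ⟨by omega, ?_⟩) hS
    have h4 := FIN_hl n d hd l h2
    rw [← hN]
    omega

theorem ALE_pos (hTHR : THR_stmt) (hE1E : SVA.E1E_stmt) (hE20 : E20_stmt) (hE10 : E10_stmt)
    (hE11 : E11_stmt) (hPRM : PRM_stmt) (k : ℕ) (n : Fin k → ℕ) (hk : 2 ≤ k) (hn : ∀ i, 1 ≤ n i)
    (d : Fin k → ℕ) (hd : ∀ i, 1 ≤ d i) (l : Fin k)
    (hl : (∑ i, n i + 1) ^ 5 ≤ d l) : Special n d ↔ Crit n d := by
  set N := ∑ i, n i with hN
  have hN2 : 2 ≤ N := by
    have h5 : k ≤ ∑ i, n i := by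
      calc k = ∑ _i : Fin k, 1 := by simp
        _ ≤ ∑ i, n i := Finset.sum_le_sum (fun i _ => hn i)
    omega
  have hpos : 27 ≤ (N + 1) ^ 3 := by
    calc 27 = 3 ^ 3 := by norm_num
      _ ≤ (N + 1) ^ 3 := Nat.pow_le_pow_left (by omega) 3
  have hbig : 3 * (N + 1) ^ 3 + 1 < d l := by
    have h1 : (N + 1) ^ 3 * 3 ^ 2 ≤ (N + 1) ^ 3 * (N + 1) ^ 2 :=
      Nat.mul_le_mul_left _ (Nat.pow_le_pow_left (by omega) 2)
    have h2 : (N + 1) ^ 3 * (N + 1) ^ 2 = (N + 1) ^ 5 := by ring
    omega
  have hfix := ALE_fix hTHR k n hk hn d hd l hbig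
  by_cases hk2 : k = 2
  · subst hk2
    by_cases hf1 : ∃ l, n l = 1 ∧ ∀ i, i ≠ l → d i = 1
    · obtain ⟨l, hl, hd1⟩ := hf1
      obtain ⟨m, e, i, hi, hm, he, huniq, hsp⟩ := K23_two hPRM n d l hl
      have h1 : ¬ Special n d := by
        rw [hsp, hd1 i hi]
        exact hE10 m e (by rw [hm]; exact hn i) (by rw [he]; exact hd l)
      have h2 : ¬ Crit n d := by
        rintro (⟨_, l', hl', hd2, hev⟩ | ⟨h3, _⟩)
        · by_cases hll : l' = l
          · rw [hll] at hd2
            have h4 := hd2 i hi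
            have h5 := hd1 i hi
            omega
          · rw [hd1 l' hll] at hev
            exact absurd hev (by decide)
        · omega
      exact ⟨fun h => absurd h h1, fun h => absurd h h2⟩
    · by_cases hf2 : ∃ l, n l = 1 ∧ ∀ i, i ≠ l → d i = 2
      · obtain ⟨l, hl, hd2⟩ := hf2
        obtain ⟨m, e, i, hi, hm, he, huniq, hsp⟩ := K23_two hPRM n d l hl
        rw [hsp, hd2 i hi, hE20 m e (by rw [hm]; exact hn i) (by rw [he]; exact hd l), he]
        constructor
        · intro hev
          exact Or.inl ⟨rfl, l, hl, hd2, hev⟩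
        · rintro (⟨_, l', hl', hd2', hev⟩ | ⟨h3, _⟩)
          · by_cases hll : l' = l
            · rw [← hll]
              exact hev
            · rw [hd2' l (Ne.symm hll)]
              decide
          · omega
      · have h1 : ¬ Special n d := hfix hf1 (fun h => hf2 h.2)
        have h2 : ¬ Crit n d := by
          rintro (⟨_, l', hl', hd2, hev⟩ | ⟨h3, _⟩)
          · exact hf2 ⟨l', hl', hd2⟩
          · omega
        exact ⟨fun h => absurd h h1, fun h => absurd h h2⟩
  · by_cases hk3 : k = 3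
    · subst hk3
      by_cases hf1 : ∃ l, n l = 1 ∧ ∀ i, i ≠ l → d i = 1
      · obtain ⟨l, hl, hd1⟩ := hf1
        constructor
        · intro hs
          have h1 := (K23_three hPRM hE11 n d hn hd l hl hd1).mp hs
          exact Or.inr ⟨rfl, l, hl, hd1, h1⟩
        · rintro (⟨h3, _⟩ | ⟨_, l', hl', hd1', h1⟩)
          · omega
          · exact (K23_three hPRM hE11 n d hn hd l' hl' hd1').mpr h1
      · have h1 : ¬ Special n d := hfix hf1 (fun h => hk2 h.1)
        have h2 : ¬ Crit n d := by
          rintro (⟨h3, _⟩ | ⟨_, l', hl', hd1, _⟩)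
          · omega
          · exact hf1 ⟨l', hl', hd1⟩
        exact ⟨fun h => absurd h h1, fun h => absurd h h2⟩
    · have h2 : ¬ Crit n d := by
        rintro (⟨h3, _⟩ | ⟨h3, _⟩)
        · exact hk2 h3
        · exact hk3 h3
      have h1 : ¬ Special n d := by
        by_cases hf1 : ∃ l, n l = 1 ∧ ∀ i, i ≠ l → d i = 1
        · obtain ⟨l', hl', hd1⟩ := hf1
          have hll : l = l' := by
            by_contra h
            have := hd1 l h
            omega
          subst hll
          have hhj : hj n d l = ∏ i ∈ Finset.univ.erase l, (n i + 1) := by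
            unfold hj
            rw [hl', Nat.sub_self, Nat.choose_zero_right, one_mul]
            refine Finset.prod_congr rfl fun i hi => ?_
            rw [hd1 i (Finset.ne_of_mem_erase hi), Nat.choose_succ_self_right]
          by_cases hv : (N + 1) ^ 3 ≤ ∏ i ∈ Finset.univ.erase l, (n i + 1)
          · exact hTHR k n d hk hn hd l (Or.inl ⟨by omega, by rw [hhj]; exact hv⟩)
          · refine hE1E k n (by omega) hn l hl' d hd1 ?_
            rw [← hN]
            refine le_trans ?_ hl
            push Not at hv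
            set Q := ∏ i ∈ Finset.univ.erase l, (n i + 1)
            calc (N + 1) * (1 + (N + 1) * Q) ≤ (N + 1) * ((N + 1) * (Q + 1)) := by
                  apply Nat.mul_le_mul_left
                  nlinarith
              _ ≤ (N + 1) * ((N + 1) * (N + 1) ^ 3) :=
                  Nat.mul_le_mul_left _ (Nat.mul_le_mul_left _ hv)
              _ = (N + 1) ^ 5 := by ring
        · exact hfix hf1 (fun h => hk2 h.1)
      exact ⟨fun h => absurd h h1, fun h => absurd h h2⟩

/-- THE EXPLICIT CLASSIFICATION OUTSIDE A FINITE BOX. -/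
theorem ALE (hTHR : THR_stmt) (hE1E : SVA.E1E_stmt) (hE20 : E20_stmt) (hE10 : E10_stmt)
    (hE11 : E11_stmt) (hPRM : PRM_stmt) (hZ0 : Z0_stmt) (hZB : ZB_stmt) : ALE_stmt := by
  intro k n hk hn d
  by_cases hneg : ∃ i, d i < 0
  · right
    have h := (hZB k n).2 d hneg
    exact ⟨fun h1 => absurd h1 h.1, fun h1 => absurd h1 h.2⟩
  · push Not at hneg
    obtain ⟨e, he⟩ : ∃ e : Fin k → ℕ, d = fun i => (e i : ℤ) :=
      ⟨fun i => (d i).toNat, funext fun i => (Int.toNat_of_nonneg (hneg i)).symm⟩
    have hb := (hZB k n).1 e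
    rw [← he] at hb
    by_cases hz : ∃ i, e i = 0
    · right
      rw [hb.1, hb.2, hZ0 k n e hn hz]
      constructor
      · intro h
        exact Or.inl ⟨hz, h⟩
      · rintro (h | h)
        · exact h.2
        · obtain ⟨i, hi⟩ := hz
          have := h.1 i
          omega
    · push Not at hz
      have hpos : ∀ i, 1 ≤ e i := fun i => Nat.one_le_iff_ne_zero.mpr (hz i)
      by_cases hbox : ∃ l, (∑ i, n i + 1) ^ 5 ≤ e l
      · right
        obtain ⟨l, hl⟩ := hbox
        rw [hb.1, hb.2, ALE_pos hTHR hE1E hE20 hE10 hE11 hPRM k n hk hn e hpos l hl]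
        constructor
        · intro h
          exact Or.inr ⟨hpos, h⟩
        · rintro (h | h)
          · obtain ⟨i, hi⟩ := h.1
            exact absurd hi (hz i)
          · exact h.2
      · left
        push Not at hbox
        constructor
        · intro i
          have h1 : d i = ((e i : ℕ) : ℤ) := by rw [he]
          rw [h1]
          exact_mod_cast hpos i
        · intro i
          have h1 : d i = ((e i : ℕ) : ℤ) := by rw [he]
          rw [h1]
          exact_mod_cast hbox i

end Pool.Agent.SV
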