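import Pool.Agent.helper80.SV.Spec2

/-!
# Project sv: part A: definitions for the family O(1,...,1,d) on Y x P^1

`Y = ∏ P^(m i)`, `i : K` (at least three factors). `V = ⊗ ℂ^(m i + 1)` has the coordinates
`β : Bx m = ∏ Fin (m i + 1)`. A form of multidegree `(1,..,1,d)` is a family `F : Bx m → ℂ[X]` of
polynomials of degree `< e = d + 1` (dehomogenised on `P^1`).
-/

set_option autoImplicit false
set_option linter.unusedSectionVars false

namespace Pool.Agent.SVA

open Polynomial Module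

variable {K : Type} [Fintype K] [DecidableEq K] {m : K → ℕ}

/-- index set of the coordinates of `V = ⊗ ℂ^(m i + 1)` -/
abbrev Bx {K : Type} (m : K → ℕ) : Type := (i : K) → Fin (m i + 1)

/-- homogeneous coordinates of a point of `Y` -/
abbrev Py {K : Type} (m : K → ℕ) : Type := (i : K) → Fin (m i + 1) → ℂ

/-- `D = dim X + 1`, `X = Y × P^1`. -/
def DD (m : K → ℕ) : ℕ := 2 + ∑ i, m i

/-- `v = dim V`. -/
def vv (m : K → ℕ) : ℕ := ∏ i, (m i + 1)

/-- the tensor `⊗ y i` -/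
def ten (y : Py m) : Bx m → ℂ := fun β => ∏ i, y i (β i)

/-- the affine tangent space of the Segre cone at `ten y` -/
def Tan (y : Py m) : Submodule ℂ (Bx m → ℂ) :=
  Submodule.span ℂ {z | ∃ (i : K) (w : Fin (m i + 1) → ℂ), z = ten (Function.update y i w)}

/-- the bilinear pairing -/
def pr (a z : Bx m → ℂ) : ℂ := ∑ β, a β * z β

/-- value at `p` -/
def ev (p : ℂ) (F : Bx m → ℂ[X]) : Bx m → ℂ := fun β => (F β).eval p

/-- derivative at `p` -/
noncomputable def dv (p : ℂ) (F : Bx m → ℂ[X]) : Bx m → ℂ := fun β => (derivative (F β)).eval p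

theorem pr_add_left (a b z : Bx m → ℂ) : pr (a + b) z = pr a z + pr b z := by
  simp [pr, add_mul, Finset.sum_add_distrib]

theorem pr_add_right (a z w : Bx m → ℂ) : pr a (z + w) = pr a z + pr a w := by
  simp [pr, mul_add, Finset.sum_add_distrib]

theorem pr_smul_left (s : ℂ) (a z : Bx m → ℂ) : pr (s • a) z = s * pr a z := by
  simp [pr, Finset.mul_sum, mul_assoc]

theorem pr_smul_right (s : ℂ) (a z : Bx m → ℂ) : pr a (s • z) = s * pr a z := by
  simp only [pr, Pi.smul_apply, smul_eq_mul, Finset.mul_sum]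
  exact Finset.sum_congr rfl fun β _ => by ring

theorem pr_zero_left (z : Bx m → ℂ) : pr 0 z = 0 := by simp [pr]

theorem pr_zero_right (a : Bx m → ℂ) : pr a 0 = 0 := by simp [pr]

theorem ev_add (p : ℂ) (F G : Bx m → ℂ[X]) : ev p (F + G) = ev p F + ev p G := by
  funext β; simp [ev]

theorem ev_smul (p s : ℂ) (F : Bx m → ℂ[X]) : ev p (s • F) = s • ev p F := by
  funext β; simp [ev]

theorem dv_add (p : ℂ) (F G : Bx m → ℂ[X]) : dv p (F + G) = dv p F + dv p G := by
  funext β; simp [dv]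

theorem dv_smul (p s : ℂ) (F : Bx m → ℂ[X]) : dv p (s • F) = s • dv p F := by
  funext β; simp [dv]

/-- the families `F` which are singular at the point `P = (y, p)` of `Y × ℂ` -/
def Sg (P : Py m × ℂ) : Submodule ℂ (Bx m → ℂ[X]) where
  carrier := {F | (∀ z ∈ Tan P.1, pr (ev P.2 F) z = 0) ∧ pr (dv P.2 F) (ten P.1) = 0}
  add_mem' := by
    rintro F G ⟨hF, hF'⟩ ⟨hG, hG'⟩
    refine ⟨fun z hz => ?_, ?_⟩
    · rw [ev_add, pr_add_left, hF z hz, hG z hz, add_zero]
    · rw [dv_add, pr_add_left, hF', hG', add_zero]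
  zero_mem' := by
    refine ⟨fun z _ => ?_, ?_⟩
    · have : ev P.2 (0 : Bx m → ℂ[X]) = 0 := by funext β; simp [ev]
      rw [this, pr_zero_left]
    · have : dv P.2 (0 : Bx m → ℂ[X]) = 0 := by funext β; simp [dv]
      rw [this, pr_zero_left]
  smul_mem' := by
    rintro s F ⟨hF, hF'⟩
    refine ⟨fun z hz => ?_, ?_⟩
    · rw [ev_smul, pr_smul_left, hF z hz, mul_zero]
    · rw [dv_smul, pr_smul_left, hF', mul_zero]

theorem mem_Sg {P : Py m × ℂ} {F : Bx m → ℂ[X]} :
    F ∈ Sg P ↔ (∀ z ∈ Tan P.1, pr (ev P.2 F) z = 0) ∧ pr (dv P.2 F) (ten P.1) = 0 := Iff.rfl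

/-- all families of polynomials of degree `< e` -/
noncomputable def WW (m : K → ℕ) (e : ℕ) : Submodule ℂ (Bx m → ℂ[X]) :=
  Submodule.pi Set.univ (fun _ => degreeLT ℂ e)

theorem mem_WW {e : ℕ} {F : Bx m → ℂ[X]} : F ∈ WW m e ↔ ∀ β, (F β).degree < e := by
  simp [WW, Submodule.mem_pi, mem_degreeLT]

instance (m : K → ℕ) (e : ℕ) : Module.Finite ℂ (WW m e) := by
  have h1 : Module.Finite ℂ (degreeLT ℂ e) := Module.Finite.equiv (degreeLTEquiv ℂ e).symm
  let L : WW m e →ₗ[ℂ] (Bx m → degreeLT ℂ e) :=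
    { toFun := fun F β => ⟨F.1 β, mem_degreeLT.mpr (mem_WW.mp F.2 β)⟩
      map_add' := fun F G => rfl
      map_smul' := fun s F => rfl }
  refine Module.Finite.of_injective L ?_
  intro F G h
  apply Subtype.ext
  funext β
  exact congrArg Subtype.val (congrFun h β)

/-- the families of degree `< e` which are singular at all points of the list `l` -/
noncomputable def NN (e : ℕ) (l : List (Py m × ℂ)) : Submodule ℂ (Bx m → ℂ[X]) :=
  WW m e ⊓ ⨅ P ∈ l, Sg P

theorem mem_NN {e : ℕ} {l : List (Py m × ℂ)} {F : Bx m → ℂ[X]} :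
    F ∈ NN e l ↔ (∀ β, (F β).degree < e) ∧ ∀ P ∈ l, F ∈ Sg P := by
  simp [NN, Submodule.mem_iInf, mem_WW]

theorem NN_le (e : ℕ) (l : List (Py m × ℂ)) : NN e l ≤ WW m e := inf_le_left

instance (e : ℕ) (l : List (Py m × ℂ)) : Module.Finite ℂ (NN e l) :=
  Submodule.finiteDimensional_of_le (NN_le e l)

/-- the families `G` of degree `< e` such that `φ G` is singular at all points of `l` -/
noncomputable def NF (e : ℕ) (φ : Bx m → ℂ[X]) (l : List (Py m × ℂ)) :
    Submodule ℂ (Bx m → ℂ[X]) where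
  carrier := {G | G ∈ WW m e ∧ ∀ P ∈ l, (fun β => φ β * G β) ∈ Sg P}
  add_mem' := by
    rintro F G ⟨hF, hF'⟩ ⟨hG, hG'⟩
    refine ⟨(WW m e).add_mem hF hG, fun P hP => ?_⟩
    have h := (Sg P).add_mem (hF' P hP) (hG' P hP)
    have h2 : (fun β => φ β * F β) + (fun β => φ β * G β) = fun β => φ β * (F + G) β := by
      funext β; simp [mul_add]
    rwa [h2] at h
  zero_mem' := by
    refine ⟨(WW m e).zero_mem, fun P _ => ?_⟩
    have h2 : (fun β => φ β * (0 : Bx m → ℂ[X]) β) = 0 := by funext β; simp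
    rw [h2]
    exact (Sg P).zero_mem
  smul_mem' := by
    rintro s F ⟨hF, hF'⟩
    refine ⟨(WW m e).smul_mem s hF, fun P hP => ?_⟩
    have h := (Sg P).smul_mem s (hF' P hP)
    have h2 : s • (fun β => φ β * F β) = fun β => φ β * (s • F) β := by
      funext β; simp
    rwa [h2] at h

theorem mem_NF {e : ℕ} {φ : Bx m → ℂ[X]} {l : List (Py m × ℂ)} {G : Bx m → ℂ[X]} :
    G ∈ NF e φ l ↔ G ∈ WW m e ∧ ∀ P ∈ l, (fun β => φ β * G β) ∈ Sg P := Iff.rfl

theorem NF_le (e : ℕ) (φ : Bx m → ℂ[X]) (l : List (Py m × ℂ)) : NF e φ l ≤ WW m e :=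
  fun _ h => h.1

instance (e : ℕ) (φ : Bx m → ℂ[X]) (l : List (Py m × ℂ)) : Module.Finite ℂ (NF e φ l) :=
  Submodule.finiteDimensional_of_le (NF_le e φ l)

/-- the coordinate points: at the coordinate `α` the parameter is `q α` -/
def blk (q : Bx m → ℂ) (α : Bx m) : Py m × ℂ := (fun i => Pi.single (α i) 1, q α)

/-- the block: all coordinate points -/
noncomputable def blkL (q : Bx m → ℂ) : List (Py m × ℂ) :=
  (Finset.univ : Finset (Bx m)).toList.map (blk q)

theorem mem_blkL {q : Bx m → ℂ} {P : Py m × ℂ} : P ∈ blkL q ↔ ∃ α, blk q α = P := by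
  simp [blkL]

theorem length_blkL (q : Bx m → ℂ) : (blkL q).length = vv m := by
  simp [blkL, vv, Fintype.card_pi]

/-- the polynomial of the block at the coordinate `β` (degree `D`) -/
noncomputable def phi (q : Bx m → ℂ) (β : Bx m) : ℂ[X] :=
  (X - C (q β)) ^ 2 * ∏ i : K, ∏ j ∈ Finset.univ.erase (β i),
    (X - C (q (Function.update β i j)))

/-- the operator `2 + A`, `A` = adjacency matrix of the Hamming graph on `Bx m`. -/
def Mx (w : Bx m → ℂ) (α : Bx m) : ℂ :=
  2 * w α + ∑ i : K, ∑ j ∈ Finset.univ.erase (α i), w (Function.update α i j)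

/-- action of `∏ GL(m i + 1)` on points -/
def rotP (g : (i : K) → Matrix (Fin (m i + 1)) (Fin (m i + 1)) ℂ) (P : Py m × ℂ) : Py m × ℂ :=
  (fun i => (g i).mulVec (P.1 i), P.2)

/-- action on `V` -/
def gz (g : (i : K) → Matrix (Fin (m i + 1)) (Fin (m i + 1)) ℂ) (z : Bx m → ℂ) : Bx m → ℂ :=
  fun β => ∑ γ, (∏ i, g i (β i) (γ i)) * z γ

/-- transposed action on the dual of `V` -/
def gt (g : (i : K) → Matrix (Fin (m i + 1)) (Fin (m i + 1)) ℂ) (a : Bx m → ℂ) : Bx m → ℂ :=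
  fun γ => ∑ β, (∏ i, g i (β i) (γ i)) * a β

/-- transposed action on families of polynomials -/
noncomputable def gtP (g : (i : K) → Matrix (Fin (m i + 1)) (Fin (m i + 1)) ℂ)
    (F : Bx m → ℂ[X]) : Bx m → ℂ[X] :=
  fun γ => ∑ β, C (∏ i, g i (β i) (γ i)) * F β

/-- `∑_{β, γ, β i = γ i} φ_β z_γ ∏_{i' ≠ i} a_{i'}(β i') b_{i'}(γ i')` -/
def Th (φ z : Bx m → ℂ) (a b : Py m) (i : K) : ℂ :=
  ∑ β : Bx m, ∑ γ : Bx m, if β i = γ i then
    φ β * z γ * ∏ i' ∈ Finset.univ.erase i, (a i' (β i') * b i' (γ i')) else 0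

/-- The state: `r` points which impose independent conditions in degree `< e` and leave nothing in
degree `< e - 1` (the bundle on `P^1` is balanced). -/
def Good (m : K → ℕ) (e x r : ℕ) : Prop :=
  1 ≤ e ∧ 1 ≤ x ∧ x ≤ vv m ∧ vv m * e = x + r * DD m ∧
    ∃ l : List (Py m × ℂ), l.length = r ∧ finrank ℂ (NN e l) = x ∧ finrank ℂ (NN (e - 1) l) = 0

/-! ## Bridge to the coordinates of the problem -/

section Bridge

open Pool.Agent.SV

/-- the dimensions of the factors other than `l` -/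
abbrev mm {k : ℕ} (n : Fin k → ℕ) (l : Fin k) : {i : Fin k // i ≠ l} → ℕ := fun i => n i.1

/-- the point of `P^{n_1} × .. × P^{n_k}` (`n l = 1`) given by `(y, (1 : p))` -/
def toPt {k : ℕ} (n : Fin k → ℕ) (l : Fin k) (P : Py (mm n l) × ℂ) : Var n → ℂ :=
  fun v => if h : v.1 = l then (if (v.2 : ℕ) = 0 then 1 else P.2)
    else P.1 ⟨v.1, h⟩ v.2

/-- coordinates of a form of multidegree `(1,..,1,d)` -/
noncomputable def fr {k : ℕ} (n : Fin k → ℕ) (l : Fin k) (f : MvPolynomial (Var n) ℂ)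
    (β : Bx (mm n l)) : ℂ[X] :=
  MvPolynomial.aeval (fun v : Var n => if h : v.1 = l then (if (v.2 : ℕ) = 0 then 1 else X)
    else (if (v.2 : ℕ) = (β ⟨v.1, h⟩ : ℕ) then 1 else 0 : ℂ[X])) f

end Bridge

end Pool.Agent.SVA
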