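import Pool.Agent.helper80.SV.Spec3
import Pool.Agent.helper96.SV.DefsA

/-!
# Project sv: part A: O(1,...,1,d) on Y x P^1, Y a product of at least three projective spaces,
is not special for large d. Specification (one statement per module, complete proofs in the
docstrings).

IDEA. `V = ⊗ ℂ^(m i+1)`, `v = dim V`, `D = dim X + 1`. Forms of multidegree `(1,..,1,e-1)` are families
`F : Bx m → ℂ[X]` of degree `< e`. BLOCK: `v` points, one at each coordinate point `e_α` of `Y`, with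
distinct parameters `q α`: `F` is singular at all of them iff `F β` is divisible by `phi q β`, a
polynomial of degree exactly `D` for EVERY `β`. So a block replaces `e` by `e - D` and multiplies
the remaining unknowns by the diagonal matrix `phi q`. For `q α = t₀` this matrix is scalar; its first
variation in the direction `σ` is `- Mx σ / (X - t₀)`. If a new point is not independent, a block with
`q = t₀ + ε σ` (in a suitable basis of the `ℂ^(m i + 1)`) lowers the dimension by one, because the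
coefficient of the pole at `t₀ = p` is not zero (this uses `card K ≠ 2`).
-/

set_option autoImplicit false
set_option linter.unusedSectionVars false

namespace Pool.Agent.SVA

open Polynomial Module

/-! ## Part 1: dimensions -/

/-- WDM (short). PROOF. `WW m e ≃ (Bx m → degreeLT ℂ e)` (see the instance in DefsA), `degreeLT ℂ e`
has dimension `e` (`degreeLTEquiv`), `card (Bx m) = ∏ (m i + 1) = vv m` (`Fintype.card_pi`). -/
def WDM_stmt : Prop :=
  ∀ {K : Type} [Fintype K] [DecidableEq K] (m : K → ℕ) (e : ℕ), finrank ℂ (WW m e) = vv m * e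

/-- GZT (short). The group acts compatibly. PROOF. `gz g (ten y) β = ∑_γ ∏_i g i (β i) (γ i) y i (γ i)
= ∏_i ∑_j g i (β i) j * y i j` (`Finset.prod_univ_sum` / `Fintype.piFinset`), third: exchange the
sums; fourth: `∑_γ ∏ (g i (β i) (γ i)) ∏ (h i (γ i) (δ i)) = ∏ (g i * h i) (β i) (δ i)`; fifth: entries
of `1` are `if β i = γ i then 1 else 0`, so the product is `if β = γ then 1 else 0`. Last: `rotP`
updates: `(g i).mulVec` of an updated family is the updated family; so `gz g` maps the generators of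
`Tan y` to generators of `Tan (rotP g (y,p)).1`. -/
def GZT_stmt : Prop :=
  ∀ {K : Type} [Fintype K] [DecidableEq K] {m : K → ℕ}
    (g h : (i : K) → Matrix (Fin (m i + 1)) (Fin (m i + 1)) ℂ),
    (∀ y : Py m, gz g (ten y) = ten (fun i => (g i).mulVec (y i))) ∧
    (∀ a z : Bx m → ℂ, pr (gt g a) z = pr a (gz g z)) ∧
    (∀ z : Bx m → ℂ, gz g (gz h z) = gz (fun i => g i * h i) z) ∧
    (∀ z : Bx m → ℂ, gz (fun _ => 1) z = z) ∧
    (∀ a : Bx m → ℂ, gt h (gt g a) = gt (fun i => g i * h i) a) ∧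
    (∀ a : Bx m → ℂ, gt (fun _ => 1) a = a) ∧
    (∀ (y : Py m), ∀ z ∈ Tan y, gz g z ∈ Tan (fun i => (g i).mulVec (y i)))

/-- TEN (short). Tensors of points detect functionals, and `ten y ∈ Tan y`.
PROOF. (1) `a ≠ 0`: some `a β ≠ 0`; `y i = Pi.single (β i) 1` gives `ten y = Pi.single β 1` and
`pr a (ten y) = a β`. All `y i ≠ 0`. (2) `update y i (y i) = y`. (3) if `pr a (ten y) ≠ 0` then no
`y i` is zero (otherwise `ten y = 0`). (4) `∏ i, y i (β i) ≠ 0` for a suitable `β`. -/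
def TEN_stmt : Prop :=
  ∀ {K : Type} [Fintype K] [DecidableEq K] [Nonempty K] {m : K → ℕ},
    (∀ a : Bx m → ℂ, a ≠ 0 → ∃ y : Py m, pr a (ten y) ≠ 0) ∧
    (∀ y : Py m, ten y ∈ Tan y) ∧
    (∀ (a : Bx m → ℂ) (y : Py m), pr a (ten y) ≠ 0 → ∀ i, y i ≠ 0) ∧
    (∀ y : Py m, (∀ i, y i ≠ 0) → ten y ≠ 0)

/-- TDM (medium; uses: GZT, TEN). Dimension of the tangent space.
PROOF. If all `y i ≠ 0` choose invertible `g i` with `(g i).mulVec (Pi.single 0 1) = y i`; `gz g` is a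
linear automorphism of `Bx m → ℂ` (inverse `gz g⁻¹`, GZT) which maps `Tan (e_0)` onto `Tan y`
(`e_0 = fun i => Pi.single 0 1`); `Tan e_0` is spanned by the coordinate vectors `Pi.single β 1` with
`β = update 0 i j`, `i : K`, `j : Fin (m i + 1)`: these are `1 + ∑ m i` different ones (`β = 0`, and
`j ≠ 0`). If some `y i₀ = 0` then `ten (update y i w) = 0` for `i ≠ i₀`, so `Tan y` is the range of the
linear map `w ↦ ten (update y i₀ w)`, of dimension `≤ m i₀ + 1 ≤ 1 + ∑ m i`. -/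
def TDM_stmt : Prop :=
  ∀ {K : Type} [Fintype K] [DecidableEq K] [Nonempty K] {m : K → ℕ} (y : Py m),
    finrank ℂ (Tan y) + 1 ≤ DD m ∧ ((∀ i, y i ≠ 0) → finrank ℂ (Tan y) + 1 = DD m)

/-- CNT (medium; uses: WDM, TDM). Counting conditions.
PROOF. (1) `NN e (P :: l)` is the kernel of the linear map `NN e l → Dual (Tan P.1) × ℂ`,
`F ↦ (z ↦ pr (ev P.2 F) z, pr (dv P.2 F) (ten P.1))`, whose target has dimension
`finrank (Tan P.1) + 1 ≤ DD m`. (2) by induction on `l` from (1), `NN e [] = WW m e`, WDM.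
(3) `NN e (P :: l) ≤ NN e l`, and in general `NN` only depends on the members of the list and is
antitone in the list and monotone in `e`. -/
def CNT_stmt : Prop :=
  ∀ {K : Type} [Fintype K] [DecidableEq K] [Nonempty K] {m : K → ℕ} (e : ℕ)
    (l : List (Py m × ℂ)) (P : Py m × ℂ),
    finrank ℂ (NN e l) ≤ finrank ℂ (NN e (P :: l)) + DD m ∧
    vv m * e ≤ finrank ℂ (NN e l) + l.length * DD m

/-- MNO (short). Monotonicity. PROOF. `mem_NN`, `Submodule.finrank_mono`. -/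
def MNO_stmt : Prop :=
  ∀ {K : Type} [Fintype K] [DecidableEq K] {m : K → ℕ} (e e' : ℕ) (l l' : List (Py m × ℂ)),
    e ≤ e' → (∀ P ∈ l', P ∈ l) → NN e l ≤ NN e' l' ∧ finrank ℂ (NN e l) ≤ finrank ℂ (NN e' l')

/-- SCL (short; uses: TEN). Scalar functions which do not vanish at the point do not matter.
PROOF. `ev p (u F) = u(p) ev p F`, `dv p (u F) = u'(p) ev p F + u(p) dv p F`, and `ten y ∈ Tan y`. -/
def SCL_stmt : Prop :=
  ∀ {K : Type} [Fintype K] [DecidableEq K] [Nonempty K] {m : K → ℕ} (u : ℂ[X])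
    (P : Py m × ℂ) (F : Bx m → ℂ[X]), u.eval P.2 ≠ 0 →
    ((fun β => u * F β) ∈ Sg P ↔ F ∈ Sg P)

/-- DIV (short; uses: SCL, MNO). No section of the balanced bundle vanishes at a new parameter.
PROOF. `F β (p) = 0` for all `β`: `F β = (X - C p) * G β`, `degree (G β) < e`, `G ∈ Sg Q` for all
`Q ∈ l` by SCL. So `G ∈ NN e l`. -/
def DIV_stmt : Prop :=
  ∀ {K : Type} [Fintype K] [DecidableEq K] [Nonempty K] {m : K → ℕ} (e : ℕ)
    (l : List (Py m × ℂ)) (p : ℂ), (∀ Q ∈ l, Q.2 ≠ p) →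
    ∀ F ∈ NN (e + 1) l, ev p F = 0 → ∃ G ∈ NN e l, F = fun β => (X - C p) * G β

/-! ## Part 2: the block -/

/-- BLK (medium). The block of coordinate points imposes divisibility conditions.
PROOF. `Tan (blk q α).1` is spanned by the coordinate vectors `Pi.single γ 1`, `γ = update α i j`
(`ten (update (blk q α).1 i w) = ∑ j, w j • Pi.single (update α i j) 1`). So
`F ∈ Sg (blk q α)` iff `(F (update α i j)).eval (q α) = 0` for all `i, j` and
`(derivative (F α)).eval (q α) = 0` (`ten (blk q α).1 = Pi.single α 1`). For fixed `β` the conditions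
on `F β` are: `α = β`: `F β` and its derivative vanish at `q β`, i.e. `(X - C (q β))^2 ∣ F β`;
`α = update β i j`, `j ≠ β i` (then `β = update α i (β i)`): `(X - C (q α)) ∣ F β`. These `α` are
pairwise different and different from `β`, `q` is injective, so the factors are pairwise coprime
(`Polynomial.pairwise_coprime_X_sub_C`, `Finset.prod_dvd_of_coprime`, `IsCoprime.mul_dvd`): iff
`phi q β ∣ F β`. -/
def BLK_stmt : Prop :=
  ∀ {K : Type} [Fintype K] [DecidableEq K] [Nonempty K] {m : K → ℕ} (q : Bx m → ℂ),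
    Function.Injective q → ∀ F : Bx m → ℂ[X],
      (∀ P ∈ blkL q, F ∈ Sg P) ↔ ∀ β, phi q β ∣ F β

/-- PHD (short). PROOF. Product of `2 + ∑ m i` monic linear polynomials. -/
def PHD_stmt : Prop :=
  ∀ {K : Type} [Fintype K] [DecidableEq K] {m : K → ℕ} (q : Bx m → ℂ) (β : Bx m),
    (phi q β).Monic ∧ (phi q β).natDegree = DD m

/-- BLD (medium; uses: BLK, PHD). Adding a block.
PROOF. `G ↦ (fun β => phi q β * G β)` is linear and injective; it maps `NF e (phi q) l` onto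
`NN (e + DD m) (blkL q ++ l)`: degrees `degree (phi q β * G β) = DD m + degree (G β)`, BLK. -/
def BLD_stmt : Prop :=
  ∀ {K : Type} [Fintype K] [DecidableEq K] [Nonempty K] {m : K → ℕ} (q : Bx m → ℂ),
    Function.Injective q → ∀ (e : ℕ) (l : List (Py m × ℂ)),
      finrank ℂ (NN (e + DD m) (blkL q ++ l)) = finrank ℂ (NF e (phi q) l)

/-- PHE (medium). Expansion of the block polynomials for `q α = t₀ + ε σ α`.
PROOF. General lemma: for a finite multiset (list) of numbers `s_1, .., s_n` and `A ∈ ℂ[X]` there are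
`ψ_0 = A^n`, `ψ_1 = - C (∑ s) * A^(n-1)`, `ψ_2, ..` with `∏ (A - C (ε s_a)) = ∑_{k ≤ n} C (ε^k) ψ_k` for
all `ε` (induction on the list, adding one factor). Here `A = X - C t₀`, the numbers are `σ β, σ β` and
`σ (update β i j)`, `j ≠ β i`: `n = DD m`, sum `Mx σ β`. -/
def PHE_stmt : Prop :=
  ∀ {K : Type} [Fintype K] [DecidableEq K] {m : K → ℕ} (t₀ : ℂ) (σ : Bx m → ℂ),
    ∃ ψ : ℕ → Bx m → ℂ[X],
      (∀ (ε : ℂ) (β : Bx m), phi (fun α => t₀ + ε * σ α) β =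
        ∑ k ∈ Finset.range (DD m + 1), C (ε ^ k) * ψ k β) ∧
      (∀ β, ψ 0 β = (X - C t₀) ^ DD m) ∧
      (∀ β, ψ 1 β = - (C (Mx σ β) * (X - C t₀) ^ (DD m - 1)))

/-! ## Part 3: linear algebra of one-parameter families -/

/-- LQA (medium; uses: SV.T1). Semicontinuity for preimages.
PROOF. `B ε = S.mkQ ∘ (∑ ε^i • M i) : E → Y ⧸ S` has kernel `comap .. S` and values in the finite
dimensional subspace `R = ∑_i range (S.mkQ ∘ M i)`; with coordinates of `R` it is a family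
`E → (J → ℂ)`, `J` finite, all entries polynomial in `ε`. Apply `SV.T1_stmt` at `t₀ = 0`
(`∑ 0^i • M i = M 0`). -/
def LQA_stmt : Prop :=
  ∀ {E Y : Type} [AddCommGroup E] [Module ℂ E] [Module.Finite ℂ E] [AddCommGroup Y] [Module ℂ Y]
    (S : Submodule ℂ Y) (N : ℕ) (M : ℕ → E →ₗ[ℂ] Y) (k : ℕ),
    finrank ℂ (S.comap (M 0)) ≤ k →
    {ε : ℂ | ¬ finrank ℂ (S.comap (∑ i ∈ Finset.range (N + 1), ε ^ i • M i)) ≤ k}.Finite

/-- LQB (medium; uses: SV.T1). First order drop.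
PROOF. `f ≠ 0` (as `Λ (M 1 f) ≠ 0`). Choose a linear functional `θ` on `E` with `θ f = 1`. Write
`B ε = mkQ ∘ (∑_i ε^i • M i) : E → Y ⧸ S` (kernel = the comap at `ε`) and define
`B' ε x = mkQ ((∑_i ε^i M i) (x - θ x • f)) + θ x • mkQ (∑_{1 ≤ i ≤ N} ε^(i-1) M i f)`. As
`mkQ (M 0 f) = 0`, for `ε ≠ 0` we have `B' ε = B ε ∘ A_ε` with `A_ε x = (x - θ x • f) + (ε⁻¹ θ x) • f`, a
linear automorphism of `E`; so `finrank ker (B' ε) = finrank (comap at ε)`. At `ε = 0`: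
`x ∈ ker (B' 0)` means `mkQ (M 0 (x - θ x f)) + θ x mkQ (M 1 f) = 0`, i.e.
`M 0 (x - θ x f) + θ x M 1 f ∈ S`; apply `Λ` (zero on `S` and on the range of `M 0`): `θ x Λ (M 1 f) = 0`,
so `θ x = 0` and `M 0 x ∈ S`: `ker (B' 0) ≤ comap (M 0) S ∩ ker θ`, and this has dimension
`finrank (comap (M 0) S) - 1 ≤ k`, because `f ∈ comap (M 0) S`, `θ f ≠ 0`. `B'` is a family with
entries polynomial in `ε` (coordinates of a finite dimensional subspace of `Y ⧸ S` containing all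
values): T1 at `0` gives the claim for all but finitely many `ε`, and remove `ε = 0`. -/
def LQB_stmt : Prop :=
  ∀ {E Y : Type} [AddCommGroup E] [Module ℂ E] [Module.Finite ℂ E] [AddCommGroup Y] [Module ℂ Y]
    (S : Submodule ℂ Y) (N : ℕ) (M : ℕ → E →ₗ[ℂ] Y) (k : ℕ) (f : E) (Λ : Y →ₗ[ℂ] ℂ), 1 ≤ N →
    M 0 f ∈ S → (∀ y ∈ S, Λ y = 0) → (∀ x, Λ (M 0 x) = 0) → Λ (M 1 f) ≠ 0 →
    finrank ℂ (S.comap (M 0)) ≤ k + 1 →
    {ε : ℂ | ¬ finrank ℂ (S.comap (∑ i ∈ Finset.range (N + 1), ε ^ i • M i)) ≤ k}.Finite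

/-- SEM (medium; uses: LQA, PHE, SCL). Semicontinuity for a block which collapses to `t₀`.
PROOF. LQA with `E = WW m e`, `Y = Bx m → ℂ[X]`, `S = ⨅ P ∈ l, Sg P`, `M k G = (ψ k β * G β)_β` (PHE).
`comap (M 0) S = {G | (X - t₀)^D G ∈ S} = NN e l` (SCL, `P.2 ≠ t₀`), and the comap at `ε` is
`NF e (phi (t₀ + ε σ)) l`, both considered in `WW m e` (`Submodule.comap_subtype`,
`Submodule.finrank_map_subtype_eq`). -/
def SEM_stmt : Prop :=
  ∀ {K : Type} [Fintype K] [DecidableEq K] [Nonempty K] {m : K → ℕ} (e : ℕ)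
    (l : List (Py m × ℂ)) (t₀ : ℂ) (σ : Bx m → ℂ), (∀ P ∈ l, P.2 ≠ t₀) →
    {ε : ℂ | ¬ finrank ℂ (NF e (phi (fun α => t₀ + ε * σ α)) l) ≤ finrank ℂ (NN e l)}.Finite

/-- LIN (medium; uses: SV.T1). Moving one point `y` on a line.
PROOF. `E = NN e l`, `J = (Σ i, Fin (m i + 1)) ⊕ Unit`, `B t F = (pr (ev p F) (ten (update (y₀ + t
(y₁ - y₀)) i (Pi.single j 1))))_{i,j}, pr (dv p F) (ten (y₀ + t (y₁ - y₀)))`; the entries are
polynomials in `t`, the kernel is `NN e ((y₀ + t (y₁ - y₀), p) :: l)` (the vectors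
`ten (update y i (Pi.single j 1))` span `Tan y`). T1 at `t = 0`. -/
def LIN_stmt : Prop :=
  ∀ {K : Type} [Fintype K] [DecidableEq K] [Nonempty K] {m : K → ℕ} (e k : ℕ)
    (l : List (Py m × ℂ)) (y₀ y₁ : Py m) (p : ℂ),
    finrank ℂ (NN e ((y₀, p) :: l)) ≤ k →
    {t : ℂ | ¬ finrank ℂ (NN e ((y₀ + t • (y₁ - y₀), p) :: l)) ≤ k}.Finite

/-! ## Part 4: the first variation does not vanish -/

/-- REL (medium; uses: TDM, WDM). Dependent conditions give a relation.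
PROOF. Consider the linear map `Ψ : (∏_j (Tan (l.get j).1 × ℂ)) × (Tan P.1 × ℂ) → Dual (WW m e)`,
`((z_j, c_j)_j, (z₀, c₀)) ↦ (F ↦ ∑_j (..) + (..))`. The annihilator of its range is `NN e (P :: l)`, so
`rank Ψ = vv m * e - finrank (NN e (P :: l)) < (l.length + 1) * DD m` (hypotheses). The restriction
`Ψ'` to the first factor has the annihilator `NN e l`, so its rank is `vv m * e - finrank (NN e l)
= l.length * DD m`; the dimension of its domain is `≤ l.length * DD m` (TDM), so `Ψ'` is injective and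
the domain has exactly this dimension; the domain of `Ψ` has dimension `(l.length + 1) * DD m` (TDM
for `P.1`, all `P.1 i ≠ 0`). So `Ψ` has a non zero kernel element; its `(z₀, c₀)` is not zero,
because otherwise it would be in the kernel of `Ψ'`. -/
def REL_stmt : Prop :=
  ∀ {K : Type} [Fintype K] [DecidableEq K] [Nonempty K] {m : K → ℕ} (e : ℕ)
    (l : List (Py m × ℂ)) (P : Py m × ℂ), (∀ i, P.1 i ≠ 0) →
    vv m * e = finrank ℂ (NN e l) + l.length * DD m →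
    finrank ℂ (NN e l) < finrank ℂ (NN e (P :: l)) + DD m →
    ∃ (z : Fin l.length → Bx m → ℂ) (c : Fin l.length → ℂ) (z₀ : Bx m → ℂ) (c₀ : ℂ),
      (∀ j, z j ∈ Tan (l.get j).1) ∧ z₀ ∈ Tan P.1 ∧ (z₀ ≠ 0 ∨ c₀ ≠ 0) ∧
      ∀ F ∈ WW m e, (∑ j, (pr (ev (l.get j).2 F) (z j) +
          c j * pr (dv (l.get j).2 F) (ten (l.get j).1))) +
        (pr (ev P.2 F) z₀ + c₀ * pr (dv P.2 F) (ten P.1)) = 0

/-- PFR (short). Partial fractions: a non zero pole at `p`.
PROOF. Multiply by `(p - t)^2 ∏_j (p_j - t)^2` if `b₀ ≠ 0`, by `(p - t) ∏_j (p_j - t)^2` if `b₀ = 0`,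
`a₀ ≠ 0`: for `t` different from `p` and all `p_j` the product is a polynomial in `t` whose value at
`t = p` is `b₀ ∏ (p_j - p)^2 ≠ 0` resp. `a₀ ∏ (p_j - p)^2 ≠ 0`; so it has finitely many zeros. -/
def PFR_stmt : Prop :=
  ∀ {J : Type} [Fintype J] (p a₀ b₀ : ℂ) (q a b : J → ℂ), (∀ j, q j ≠ p) → (a₀ ≠ 0 ∨ b₀ ≠ 0) →
    {t : ℂ | (∑ j, (a j / (q j - t) + b j / (q j - t) ^ 2)) + (a₀ / (p - t) + b₀ / (p - t) ^ 2)
      = 0}.Finite

/-- SIG (short). PROOF. `∑ β, Mx σ β * w β = ∑ α, σ α * Mx w α` (exchange the sums: `(β, i, j)`,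
`j ≠ β i`, `α = update β i j` corresponds to `(α, i, β i)`, `β = update α i (β i)`). Take any injective
`σ₀ : Bx m → ℂ` (finite type). If the sum for `σ₀` is not zero, done; otherwise
`σ = σ₀ + c • Pi.single α 1` with `c ≠ 0` outside a finite set is injective and the sum is
`c * Mx w α ≠ 0`. -/
def SIG_stmt : Prop :=
  ∀ {K : Type} [Fintype K] [DecidableEq K] {m : K → ℕ} (w : Bx m → ℂ) (α : Bx m),
    Mx w α ≠ 0 → ∃ σ : Bx m → ℂ, Function.Injective σ ∧ ∑ β, Mx σ β * w β ≠ 0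

/-- FVR (medium; uses: SCL, TEN). The functional used in KZ: for `t₀` different from all parameters the
linear functional `Λ H = ∑_j ((pr (ev p_j H) z_j) / u_j + c_j ((pr (dv p_j H) y_j) / u_j -
(pr (ev p_j H) y_j) u'_j / u_j^2))`, `u = (X - t₀)^D`, `u_j = u(p_j)`, `u'_j = u'(p_j)`, `y_j = ten ..`
(sum over all points `Q j`, `j : J`) vanishes if `H ∈ Sg (Q j)` for all `j`; `Λ (u G) =
∑_j (pr (ev p_j G) z_j + c_j pr (dv p_j G) y_j)`; and for `H β = - C (M β) * (X - t₀)^(D-1) * F β` it is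
`- ∑_j ((pr (M * ev p_j F) z_j + c_j pr (M * dv p_j F) y_j) / (p_j - t₀) -
c_j pr (M * ev p_j F) y_j / (p_j - t₀)^2)`.
PROOF. direct computation; `u = (X - C t₀)^D`, `u' = D (X - C t₀)^(D-1)`; the last: `H / u` is
`- M F / (X - t₀)` and its derivative is `- M F' / (X - t₀) + M F / (X - t₀)^2`. `D = DD m ≥ 2`. -/
def FVR_stmt : Prop :=
  ∀ {K : Type} [Fintype K] [DecidableEq K] [Nonempty K] {m : K → ℕ} {J : Type} [Fintype J]
    (Q : J → Py m × ℂ) (z : J → Bx m → ℂ) (c : J → ℂ) (t₀ : ℂ),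
    (∀ j, (Q j).2 ≠ t₀) → (∀ j, z j ∈ Tan (Q j).1) →
    ∃ Λ : (Bx m → ℂ[X]) →ₗ[ℂ] ℂ,
      (∀ H, (∀ j, H ∈ Sg (Q j)) → Λ H = 0) ∧
      (∀ G : Bx m → ℂ[X], Λ (fun β => (X - C t₀) ^ DD m * G β) =
        ∑ j, (pr (ev (Q j).2 G) (z j) + c j * pr (dv (Q j).2 G) (ten (Q j).1))) ∧
      (∀ (M : Bx m → ℂ) (F : Bx m → ℂ[X]),
        Λ (fun β => - (C (M β) * (X - C t₀) ^ (DD m - 1)) * F β) =
        - ∑ j, ((pr (fun β => M β * ev (Q j).2 F β) (z j) +
            c j * pr (fun β => M β * dv (Q j).2 F β) (ten (Q j).1)) / ((Q j).2 - t₀) +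
          (- (c j * pr (fun β => M β * ev (Q j).2 F β) (ten (Q j).1))) / ((Q j).2 - t₀) ^ 2))

/-- KZ (LONG; uses: LQB, PHE, PFR, SCL, SIG, FVR). The drop for a standard block.
PROOF. Put `w β = (F β)(p) * (ten P.1) β` if `c₀ ≠ 0`, `w β = (F β)(p) z₀ β` if `c₀ = 0`; `Mx w α ≠ 0`.
SIG: injective `σ` with `∑ Mx σ β * w β ≠ 0`. In FVR (`J = Option (Fin l.length)` or
`Fin (l.length + 1)`, the points of `P :: l`) the number in the third item with `M = Mx σ` is minus a sum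
of partial fractions in `t₀` whose coefficients at `p = P.2` are
`b₀ = - c₀ ∑ Mx σ β (F β)(p) (ten P.1) β`, `a₀ = ∑ Mx σ β (F β)(p) z₀ β + c₀ (..)`: `b₀ ≠ 0` if `c₀ ≠ 0`,
`a₀ ≠ 0` if `c₀ = 0`. The other parameters are `≠ p`. By PFR it is not zero for all but finitely many
`t₀`; choose such a `t₀`, different from all parameters. Now LQB with `E = WW m e`, `Y = Bx m → ℂ[X]`,
`S = ⨅ Q ∈ P :: l, Sg Q`, `M k G = ψ k * G` (PHE, `N = DD m ≥ 1`), `f = F`, `Λ` from FVR: `M 0 F ∈ S`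
(SCL, `F ∈ NN e (P :: l)`), `Λ = 0` on `S`, `Λ ∘ M 0 = 0` (the relation), `Λ (M 1 F) ≠ 0`,
`finrank comap (M 0) S = finrank (NN e (P :: l))` (as in SEM), which is `≥ 1` as `Λ (M 1 F) ≠ 0` forces
`F ≠ 0`; `k = finrank (NN e (P :: l)) - 1`. -/
def KZ_stmt : Prop :=
  ∀ {K : Type} [Fintype K] [DecidableEq K] [Nonempty K] {m : K → ℕ} (e : ℕ)
    (l : List (Py m × ℂ)) (P : Py m × ℂ), (∀ Q ∈ l, Q.2 ≠ P.2) →
    ∀ F ∈ NN e (P :: l),
    ∀ (z : Fin l.length → Bx m → ℂ) (c : Fin l.length → ℂ) (z₀ : Bx m → ℂ) (c₀ : ℂ),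
      (∀ j, z j ∈ Tan (l.get j).1) → z₀ ∈ Tan P.1 →
      (∀ G ∈ WW m e, (∑ j, (pr (ev (l.get j).2 G) (z j) +
          c j * pr (dv (l.get j).2 G) (ten (l.get j).1))) +
        (pr (ev P.2 G) z₀ + c₀ * pr (dv P.2 G) (ten P.1)) = 0) →
      ((c₀ ≠ 0 ∧ ∃ α, Mx (fun β => ev P.2 F β * ten P.1 β) α ≠ 0) ∨
        (c₀ = 0 ∧ ∃ α, Mx (fun β => ev P.2 F β * z₀ β) α ≠ 0)) →
      ∃ (t₀ : ℂ) (σ : Bx m → ℂ), Function.Injective σ ∧ (∀ Q ∈ P :: l, Q.2 ≠ t₀) ∧
        {ε : ℂ | ¬ finrank ℂ (NF e (phi (fun α => t₀ + ε * σ α)) (P :: l)) <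
          finrank ℂ (NN e (P :: l))}.Finite

/-! ## Part 5: choice of the basis (here `card K ≥ 3` is used) -/

/-- MU1 (medium). Orthogonal pairs.
PROOF. `φ β₀ ≠ 0`: `a¹ i = Pi.single (β₀ i) 1` has `pr φ (ten a¹) = φ β₀ ≠ 0`. `z γ₀ ≠ 0`:
`b² i = Pi.single (γ₀ i) 1` has `pr (ten b²) z ≠ 0`; choose `j₀ i ≠ γ₀ i` (`m i ≥ 1`) and
`a² i = Pi.single (j₀ i) 1`, so `∑_j b² i j * a² i j = 0`. For `s ∈ ℂ` put `a i = a² i + s a¹ i` and
`b i = b² i + s c i` where `c i` is chosen with `c i · a¹ i = 0` and `c i · a² i = - b² i · a¹ i`: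
if `β₀ i ≠ γ₀ i` then `b² i · a¹ i = 0` and `c i = 0` works; if `β₀ i = γ₀ i` then `j₀ i ≠ β₀ i` and
`c i = - Pi.single (j₀ i) 1` works. Then `b i · a i = b²·a² + s (b²·a¹ + c·a²) + s² c·a¹ = 0` for all
`s`. Take `s = u⁻¹`, `u ≠ 0`: `pr φ (ten (a² + s a¹)) = s^(card K) * pr φ (ten (a¹ + u a²))`, and
`u ↦ pr φ (ten (a¹ + u a²))` is a polynomial function, non zero at `u = 0`; `s ↦ pr (ten (b² + s c)) z` is
a polynomial function, non zero at `s = 0`. All but finitely many `u` are good for both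
(`SV.PolyFun.finite_zeros`). -/
def MU1_stmt : Prop :=
  ∀ {K : Type} [Fintype K] [DecidableEq K] {m : K → ℕ}, (∀ i, 1 ≤ m i) →
    ∀ φ z : Bx m → ℂ, φ ≠ 0 → z ≠ 0 → ∃ a b : Py m, (∀ i, ∑ j, b i j * a i j = 0) ∧
      pr φ (ten a) ≠ 0 ∧ pr (ten b) z ≠ 0

/-- MU2 (medium; uses: MU1). Here `card K ≥ 3` is used (`2 - card K ≠ 0`).
PROOF. `a, b` from MU1. `b i ≠ 0` (else `ten b = 0`), so there is `u i` with `∑_j b i j * u i j = 1`. For
`s ∈ ℂ` let `a_s i = a i + s u i`, so `b i · a_s i = s`. The function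
`Φ s = (2 - card K) pr φ (ten a_s) pr (ten b) z + ∑_i s * Th φ z a_s b i` is a polynomial in `s` with
`Φ 0 = (2 - card K) pr φ (ten a) pr (ten b) z ≠ 0`. Choose `s ≠ 0` with `Φ s ≠ 0` and `a' = s⁻¹ a_s`:
`b i · a' i = 1`, `pr φ (ten a') = s^(-card K) pr φ (ten a_s)`, `Th φ z a' b i = s^(-(card K - 1))
Th φ z a_s b i`, so the number in question is `s^(-card K) Φ s ≠ 0`. -/
def MU2_stmt : Prop :=
  ∀ {K : Type} [Fintype K] [DecidableEq K] {m : K → ℕ}, 3 ≤ Fintype.card K → (∀ i, 1 ≤ m i) →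
    ∀ φ z : Bx m → ℂ, φ ≠ 0 → z ≠ 0 → ∃ a b : Py m, (∀ i, ∑ j, b i j * a i j = 1) ∧
      (2 - (Fintype.card K : ℂ)) * (pr φ (ten a) * pr (ten b) z) + ∑ i, Th φ z a b i ≠ 0

/-- MU3 (medium). A pair of vectors with `b · a = 1` is part of a basis and its dual basis.
PROOF. There is an invertible matrix `h` with first column `a` (`a ≠ 0`: complete `a` to a basis).
`c = b ᵥ* h` has `c 0 = b · a = 1`. Let `u = 1 - E` with `E = ` the matrix whose `0`-th row is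
`c - e_0` and whose other rows are `0`; `det u = 1` (upper triangular), `u` has first column `e_0`.
`g = h * u`: first column `h e_0 = a`; `b ᵥ* g = c ᵥ* u = c - c 0 (c - e_0) = e_0`, so the `0`-th row
of `g⁻¹` is `b` (`b = (b ᵥ* g) ᵥ* g⁻¹ = e_0 ᵥ* g⁻¹`). -/
def MU3_stmt : Prop :=
  ∀ (n : ℕ) (a b : Fin (n + 1) → ℂ), ∑ j, b j * a j = 1 →
    ∃ g : Matrix (Fin (n + 1)) (Fin (n + 1)) ℂ, IsUnit g.det ∧ (∀ j, g j 0 = a j) ∧
      ∀ j, g⁻¹ 0 j = b j

/-- MU (medium; uses: MU2, MU3). The basis.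
PROOF. `a, b` from MU2, `g i` from MU3, `α = 0`. Let `w β = gt g φ β * gz g⁻¹ z β`. `2 w_0 +
∑_i ∑_{j ≠ 0} w (update 0 i j) = (2 - card K) w_0 + ∑_i ∑_j w (update 0 i j)`. `w_0 = pr φ (ten a) *
pr (ten b) z` (columns `0` of `g i` are `a i`, rows `0` of `(g i)⁻¹` are `b i`).
`∑_j w (update 0 i j) = ∑_{β,γ} φ β z γ ∏_{i' ≠ i} a_{i'}(β i') b_{i'}(γ i') ∑_j g i (β i) j *
(g i)⁻¹ j (γ i)` and the last sum is `1` if `β i = γ i`, else `0`: this is `Th φ z a b i`. -/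
def MU_stmt : Prop :=
  ∀ {K : Type} [Fintype K] [DecidableEq K] {m : K → ℕ}, 3 ≤ Fintype.card K → (∀ i, 1 ≤ m i) →
    ∀ φ z : Bx m → ℂ, φ ≠ 0 → z ≠ 0 →
      ∃ g : (i : K) → Matrix (Fin (m i + 1)) (Fin (m i + 1)) ℂ, (∀ i, IsUnit (g i).det) ∧
        ∃ α, Mx (fun β => gt g φ β * gz (fun i => (g i)⁻¹) z β) α ≠ 0

/-- ROT (medium; uses: GZT). Change of basis.
PROOF. `h = g⁻¹`. `ev p (gtP g F) = gt g (ev p F)`, `dv p (gtP g F) = gt g (dv p F)`. So for `P = (y,p)`: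
`pr (ev p (gtP g F)) (gz h z) = pr (gt g (ev p F)) (gz h z) = pr (ev p F) (gz g (gz h z)) =
pr (ev p F) z`, `gz h` maps `Tan y` into `Tan (h y)` and `gz g` maps `Tan (h y)` into `Tan y`
(`g (h y) = y`), so (1). (2) `gtP g` maps `WW m e` into itself. (3) `gtP h ∘ gtP g = id = gtP g ∘ gtP h`.
(4) so `gtP g` is an isomorphism `NN e l → NN e (l.map (rotP h))`. -/
def ROT_stmt : Prop :=
  ∀ {K : Type} [Fintype K] [DecidableEq K] {m : K → ℕ}
    (g : (i : K) → Matrix (Fin (m i + 1)) (Fin (m i + 1)) ℂ), (∀ i, IsUnit (g i).det) →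
    (∀ (P : Py m × ℂ) (F : Bx m → ℂ[X]),
      gtP g F ∈ Sg (rotP (fun i => (g i)⁻¹) P) ↔ F ∈ Sg P) ∧
    (∀ (e : ℕ) (F : Bx m → ℂ[X]), gtP g F ∈ WW m e ↔ F ∈ WW m e) ∧
    (∀ G : Bx m → ℂ[X], ∃ F : Bx m → ℂ[X], gtP g F = G) ∧
    (∀ (p : ℂ) (F : Bx m → ℂ[X]), ev p (gtP g F) = gt g (ev p F) ∧
      dv p (gtP g F) = gt g (dv p F)) ∧
    (∀ (e : ℕ) (l : List (Py m × ℂ)),
      finrank ℂ (NN e (l.map (rotP (fun i => (g i)⁻¹)))) = finrank ℂ (NN e l))

/-! ## Part 6: the key step -/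

/-- KEY (LONG; uses: REL, MU, ROT, GZT, KZ, BLD, SEM, CNT, DIV, MNO, TEN). One block lowers the defect.
PROOF. Write `x = finrank (NN e l)`, `κ = finrank (NN e (P :: l)) ≥ 1`. Choose `F ≠ 0` in
`NN e (P :: l)`; `e ≥ 1` (`NN 0 _ = ⊥`), `φ = ev P.2 F ≠ 0` (DIV with `e - 1`: otherwise
`F = (X - p) G`, `G ∈ NN (e-1) l = ⊥`). REL gives `z, c, z₀, c₀`. Let `ζ = ten P.1` if `c₀ ≠ 0`,
`ζ = z₀` if `c₀ = 0`; `ζ ≠ 0`. MU for `φ, ζ`: `g, α`. `h = g⁻¹`. Put `l_h = l.map (rotP h)`,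
`P_h = rotP h P`, `F_g = gtP g F ∈ NN e (P_h :: l_h)` (ROT). The relation for `l_h, P_h` with
`gz h (z j)`, `c j`, `gz h z₀`, `c₀`: every `G ∈ WW m e` is `gtP g G'`, `G' ∈ WW m e`, and
`pr (ev p (gtP g G')) (gz h z) = pr (ev p G') z`, `ten` of the rotated point is `gz h (ten ..)`.
(`l_h.length = l.length`, `(l_h.get j) = rotP h (l.get j)`.) `ev p F_g β * gz h ζ β =
gt g φ β * gz h ζ β`, so the hypothesis of KZ holds. KZ: `t₀, σ`, and for all but finitely many `ε`: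
`finrank (NF e (phi q_ε) (P_h :: l_h)) < finrank (NN e (P_h :: l_h)) = κ`. SEM for `(e, l_h)` and
`(e - 1, l_h)`: `finrank (NF e (phi q_ε) l_h) ≤ x`, `finrank (NF (e-1) (phi q_ε) l_h) ≤ 0`. Choose
`ε ≠ 0` with all this and `t₀ + ε σ α ≠ P.2` for all `α` (`t₀ ≠ P.2`). `q_ε` is injective.
`l' = blkL q_ε ++ l_h`, `P' = P_h`. BLD: `finrank (NN (e + D) l') = finrank NF e .. ≤ x`, and `≥ x` by
CNT (2) (`vv m * (e + D) = x + (l.length + vv m) * D`); `finrank (NN (e + D - 1) l') =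
finrank (NF (e-1) ..) = 0` (`e + D - 1 = (e - 1) + D`); `NN (e + D) (P' :: l') =
NN (e + D) (blkL q_ε ++ (P_h :: l_h))` (same members), BLD: dimension `< κ`. `P'.1 i = h i *ᵥ P.1 i ≠ 0`. -/
def KEY_stmt : Prop :=
  ∀ {K : Type} [Fintype K] [DecidableEq K] [Nonempty K] {m : K → ℕ},
    3 ≤ Fintype.card K → (∀ i, 1 ≤ m i) → ∀ (e : ℕ) (l : List (Py m × ℂ)) (P : Py m × ℂ),
    (∀ Q ∈ l, Q.2 ≠ P.2) → (∀ i, P.1 i ≠ 0) →
    vv m * e = finrank ℂ (NN e l) + l.length * DD m → finrank ℂ (NN (e - 1) l) = 0 →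
    finrank ℂ (NN e l) < finrank ℂ (NN e (P :: l)) + DD m → 1 ≤ finrank ℂ (NN e (P :: l)) →
    ∃ (l' : List (Py m × ℂ)) (P' : Py m × ℂ), l'.length = l.length + vv m ∧ P'.2 = P.2 ∧
      (∀ Q ∈ l', Q.2 ≠ P'.2) ∧ (∀ i, P'.1 i ≠ 0) ∧
      finrank ℂ (NN (e + DD m) l') = finrank ℂ (NN e l) ∧
      finrank ℂ (NN (e + DD m - 1) l') = 0 ∧
      finrank ℂ (NN (e + DD m) (P' :: l')) < finrank ℂ (NN e (P :: l))

/-- ITR (short; uses: KEY). Iteration: after `≤ n` blocks the new point is independent.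
PROOF. Induction on `n`. If `finrank (NN e (P :: l)) ≤ finrank (NN e l) - DD m` take `L = 0`
(in particular if `n = 0`). Otherwise `finrank (NN e (P :: l)) ≥ 1` and
`finrank (NN e l) < finrank (NN e (P :: l)) + DD m`; KEY, then the induction hypothesis for `n - 1`
(`e + DD m`, `l'`, `P'`; `vv m * (e + DD m) = finrank (NN (e + DD m) l') + l'.length * DD m`). -/
def ITR_stmt : Prop :=
  ∀ {K : Type} [Fintype K] [DecidableEq K] [Nonempty K] {m : K → ℕ},
    3 ≤ Fintype.card K → (∀ i, 1 ≤ m i) → ∀ (n e : ℕ) (l : List (Py m × ℂ)) (P : Py m × ℂ),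
    (∀ Q ∈ l, Q.2 ≠ P.2) → (∀ i, P.1 i ≠ 0) →
    vv m * e = finrank ℂ (NN e l) + l.length * DD m → finrank ℂ (NN (e - 1) l) = 0 →
    finrank ℂ (NN e (P :: l)) ≤ finrank ℂ (NN e l) - DD m + n →
    ∃ (L : ℕ) (l' : List (Py m × ℂ)) (P' : Py m × ℂ), L ≤ n ∧
      l'.length = l.length + L * vv m ∧ P'.2 = P.2 ∧
      (∀ Q ∈ l', Q.2 ≠ P'.2) ∧ (∀ i, P'.1 i ≠ 0) ∧
      finrank ℂ (NN (e + L * DD m) l') = finrank ℂ (NN e l) ∧
      finrank ℂ (NN (e + L * DD m - 1) l') = 0 ∧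
      finrank ℂ (NN (e + L * DD m) (P' :: l')) ≤ finrank ℂ (NN e l) - DD m

/-- SUR (medium; uses: SCL, DIV, CNT, TDM, TEN). The next degree.
PROOF. Let `x = finrank (NN e l)`. `ev p : NN (e+1) l → (Bx m → ℂ)` has kernel
`{(X - p) G : G ∈ NN e l}` (DIV, SCL), of dimension `x`; so `finrank (NN (e+1) l) ≤ x + vv m`, and `≥`
by CNT (2); so `ev p` is surjective. Let `A = {G ∈ NN (e+1) l | pr (ev p G) z = 0 ∀ z ∈ Tan y}`
= preimage of the annihilator of `Tan y`, of dimension `vv m - finrank (Tan y) = vv m - (DD m - 1)`; so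
`finrank A = x + vv m - (DD m - 1)`. `NN (e+1) ((y,p) :: l)` is the kernel of the functional
`G ↦ pr (dv p G) (ten y)` on `A`, which is not zero: `G = (X - p) F ∈ A` has `dv p G = ev p F`. So its
dimension is `x + vv m - DD m`. (All `y i ≠ 0` by TEN (3). `DD m - 1 ≤ vv m` as `Tan y` is a subspace
of `Bx m → ℂ`.) -/
def SUR_stmt : Prop :=
  ∀ {K : Type} [Fintype K] [DecidableEq K] [Nonempty K] {m : K → ℕ} (e : ℕ)
    (l : List (Py m × ℂ)) (y : Py m) (p : ℂ), (∀ Q ∈ l, Q.2 ≠ p) →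
    vv m * e = finrank ℂ (NN e l) + l.length * DD m →
    ∀ F ∈ NN e l, pr (ev p F) (ten y) ≠ 0 →
      finrank ℂ (NN (e + 1) ((y, p) :: l)) + DD m = finrank ℂ (NN e l) + vv m

/-- DVV (short). `D ≤ v`. PROOF. For two numbers `(a+1)(b+1) ≥ 2 + a + b` if `a, b ≥ 1`; adding
factors: `∏ (m i + 1) ≥ 2 + ∑ m i` by induction (`(2 + s)(a + 1) ≥ 2 + s + a`). -/
def DVV_stmt : Prop :=
  ∀ {K : Type} [Fintype K] [DecidableEq K] {m : K → ℕ}, 2 ≤ Fintype.card K → (∀ i, 1 ≤ m i) →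
    DD m ≤ vv m

/-! ## Part 7: the induction on the number of points -/

/-- STA (short; uses: WDM). Start: no points. PROOF. `l = []`, `NN 1 [] = WW m 1`, `NN 0 [] = ⊥`. -/
def STA_stmt : Prop :=
  ∀ {K : Type} [Fintype K] [DecidableEq K] [Nonempty K] (m : K → ℕ), Good m 1 (vv m) 0

/-- BST (short; uses: SEM, BLD, CNT). Adding a block.
PROOF. Choose `t₀` different from all parameters of `l`, `σ` injective; SEM for `e` and `e - 1`;
choose `ε ≠ 0`; `l' = blkL q ++ l`, BLD: `finrank (NN (e+D) l') ≤ x`, `≥ x` by CNT (2),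
`finrank (NN (e + D - 1) l') = 0`. -/
def BST_stmt : Prop :=
  ∀ {K : Type} [Fintype K] [DecidableEq K] [Nonempty K] (m : K → ℕ) (e x r : ℕ),
    Good m e x r → Good m (e + DD m) x (r + vv m)

/-- STP (LONG; uses: ITR, LIN, SUR, CNT, DIV, TEN, DVV, MNO). One more point.
PROOF. `l` from `Good`; choose `p` different from all parameters and `P = (y, p)`, `y i = Pi.single 0 1`.
`finrank (NN e (P :: l)) ≤ x ≤ (x - D) + D`: ITR with `n = DD m`: `L ≤ DD m`, `l', P' = (y', p)`.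
`e' = e + L D`, `vv m * e' = x + l'.length * D`.
Case `x > D`: `Good m e' (x - D) (r + L v + 1)` with the list `P' :: l'` (`finrank ≥ x - D` by CNT (1),
`NN (e' - 1) (P' :: l') ≤ NN (e' - 1) l'`).
Case `x ≤ D`: `NN e' (P' :: l') = ⊥`. Choose `F ≠ 0` in `NN e' l'` (dimension `x ≥ 1`), `ev p F ≠ 0`
(DIV and `NN (e' - 1) l' = ⊥`), `y₁` with `pr (ev p F) (ten y₁) ≠ 0` (TEN). LIN: for all but finitely
many `t` the point `y = y' + t (y₁ - y')` has `finrank (NN e' ((y,p) :: l')) ≤ 0`, and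
`t ↦ pr (ev p F) (ten y)` is a polynomial function, non zero at `t = 1`; choose `t` with both. SUR:
`finrank (NN (e'+1) ((y,p) :: l')) = x + v - D`. So `Good m (e'+1) (x + v - D) (r + L v + 1)`:
`1 ≤ x + v - D ≤ v` (DVV), `v (e'+1) = (x + v - D) + (r + L v + 1) D`. -/
def STP_stmt : Prop :=
  ∀ {K : Type} [Fintype K] [DecidableEq K] [Nonempty K] (m : K → ℕ),
    3 ≤ Fintype.card K → (∀ i, 1 ≤ m i) → ∀ e x r : ℕ, Good m e x r →
    ∃ L e' x' : ℕ, L ≤ DD m ∧ Good m e' x' (r + L * vv m + 1)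

/-- ALG (short; uses: STA, BST, STP). Every large `r` is good.
PROOF. For every `q` there are `s ≤ q * DD m`, `e`, `x` with `Good m e x (q + s * vv m)` (induction on
`q`: STA, STP). For `r ≥ vv m * (1 + DD m * vv m)` let `q = r % vv m < vv m`, `s ≤ q * DD m`:
`q + s * vv m ≤ r` and the difference is a multiple of `vv m`: BST several times. -/
def ALG_stmt : Prop :=
  ∀ {K : Type} [Fintype K] [DecidableEq K] [Nonempty K] (m : K → ℕ),
    3 ≤ Fintype.card K → (∀ i, 1 ≤ m i) → ∀ r : ℕ, vv m * (1 + DD m * vv m) ≤ r →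
    ∃ e x : ℕ, Good m e x r

/-- CRI (medium; uses: ALG, DVV, MNO). The critical numbers of points.
PROOF. `D = DD m`, `v = vv m`. `e ≥ D (1 + D v)`, so `v * e / D ≥ v (1 + D v)` and `r` is large: ALG:
`Good m e' x r`, `v e' = x + r D`, `1 ≤ x ≤ v`. If `r D > v e` (only possible for the second `r`) then
`v e' > v e`, so `e ≤ e' - 1` and `NN e l ≤ NN (e' - 1) l = ⊥`. If `r D = v e` then `x = v (e' - e)`, so
`x = v`, `e' = e + 1`, `NN e l = NN (e' - 1) l = ⊥`. If `r D < v e` then `r = v * e / D` (also for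
the second `r`: it is `≥ v e / D` as real numbers, so this case does not occur) and
`y = v e - r D` has `1 ≤ y < D ≤ v`; `v (e' - e) = x - y` (integers) has absolute value `< v`, so
`e' = e`, `x = y`. -/
def CRI_stmt : Prop :=
  ∀ {K : Type} [Fintype K] [DecidableEq K] [Nonempty K] (m : K → ℕ),
    3 ≤ Fintype.card K → (∀ i, 1 ≤ m i) → ∀ e : ℕ, DD m * (1 + DD m * vv m) ≤ e →
    ∀ r : ℕ, (r = vv m * e / DD m ∨ r = (vv m * e + (DD m - 1)) / DD m) →
      ∃ l : List (Py m × ℂ), l.length = r ∧ finrank ℂ (NN e l) ≤ vv m * e - r * DD m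

/-! ## Part 8: the bridge -/

section Bridge

open Pool.Agent.SV

/-- BR1 (medium; uses: SV.MHS). The coordinates of a form of multidegree `(1,..,1,d)`.
PROOF. Everything is linear in `f`, and `MultiHom n d` is spanned by monomials `X^s` (`s` has exactly
one variable `⟨i, a i⟩` in each group `i ≠ l`, and `X⟨l,0⟩^p X⟨l,1⟩^q` with `p + q = d l`, as `n l = 1`).
For such a monomial `fr n l f β = X^q` if `β = a` and `0` otherwise (a product of
`if a i = β i then 1 else 0`), so `degree < d l + 1`, and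
`eval (toPt n l (y, t)) f = ∏_{i ≠ l} y i (a i) * t^q`. (3): `f = 0` if all `fr n l f β = 0`: the
monomials of `MultiHom n d` correspond bijectively to the pairs `(a, q)`, `q ≤ d l`, and the coefficient
of the monomial in `f` is the coefficient of `X^q` in `fr n l f a` (or: by (2) `f` vanishes at all
points `toPt n l (y,t)`, by homogeneity at all points with `x⟨l,0⟩ ≠ 0`, so `f = 0`,
`MvPolynomial.funext` after multiplying by `X⟨l,0⟩`). -/
def BR1_stmt : Prop :=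
  ∀ (k : ℕ) (n d : Fin k → ℕ) (l : Fin k), n l = 1 → (∀ i, i ≠ l → d i = 1) →
    ∀ f ∈ Sec (Sigma.fst : Var n → Fin k) Finset.univ d,
      (∀ β, (fr n l f β).degree < (d l + 1 : ℕ)) ∧
      (∀ (y : Py (mm n l)) (t : ℂ), MvPolynomial.eval (toPt n l (y, t)) f =
        ∑ β, (fr n l f β).eval t * ten y β) ∧
      ((∀ β, fr n l f β = 0) → f = 0)

/-- PDV (short). Partial derivatives as derivatives of polynomials in one variable.
PROOF. Induction on `f` (`MvPolynomial.induction_on`): constants, sums, and multiplication by a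
variable (Leibniz rules on both sides). -/
def PDV_stmt : Prop :=
  ∀ {ι : Type} [Fintype ι] [DecidableEq ι] (f : MvPolynomial ι ℂ) (x : ι → ℂ) (v : ι),
    (derivative (MvPolynomial.aeval
      (fun w => C (x w) + (if w = v then X else 0) : ι → ℂ[X]) f)).eval 0 =
      MvPolynomial.eval x (MvPolynomial.pderiv v f) ∧
    ∀ s : ℂ, (MvPolynomial.aeval
      (fun w => C (x w) + (if w = v then X else 0) : ι → ℂ[X]) f).eval s =
      MvPolynomial.eval (fun w => x w + if w = v then s else 0) f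

/-- BR2 (medium; uses: BR1, PDV). A singular form gives a singular family.
PROOF. Let `x = toPt n l (y, p)`, all `eval x (pderiv v f) = 0`. Write `F β = fr n l f β`.
(i) For `i ≠ l` and `j`: moving the coordinate `⟨i,j⟩` of `x` by `s` gives `toPt n l (update y i (y i + s
e_j), p)`, at which `f` has the value (BR1) `∑ F β (p) ten (update y i (y i + s e_j)) β =
(..) + s * pr (ev p F) (ten (update y i (Pi.single j 1)))` (linear in the `i`-th vector), so by PDV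
`pr (ev p F) (ten (update y i (Pi.single j 1))) = eval x (pderiv ⟨i,j⟩ f) = 0`; these vectors span
`Tan y`. (ii) moving the coordinate `⟨l,1⟩` by `s` gives `toPt n l (y, p + s)`, value
`∑ (F β)(p + s) ten y β`, derivative at `s = 0`: `pr (dv p F) (ten y) = 0`. -/
def BR2_stmt : Prop :=
  ∀ (k : ℕ) (n d : Fin k → ℕ) (l : Fin k), n l = 1 → (∀ i, i ≠ l → d i = 1) →
    ∀ f ∈ Sec (Sigma.fst : Var n → Fin k) Finset.univ d, ∀ P : Py (mm n l) × ℂ,
      (∀ v, MvPolynomial.eval (toPt n l P) (MvPolynomial.pderiv v f) = 0) →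
      (fun β => fr n l f β) ∈ Sg P

/-- BR3 (short; uses: BR1, BR2). PROOF. `f ↦ fr n l f` is linear, injective on `Sec ..` by BR1, and
maps `Sng Sigma.fst d (fun j => toPt n l (L.get j))` into `NN (d l + 1) L` (BR2, BR1, `mem_Sng`).
`LinearMap.finrank_le_finrank_of_injective`. -/
def BR3_stmt : Prop :=
  ∀ (k : ℕ) (n d : Fin k → ℕ) (l : Fin k), n l = 1 → (∀ i, i ≠ l → d i = 1) →
    ∀ L : List (Py (mm n l) × ℂ),
      finrank ℂ ↥(Sng (Sigma.fst : Var n → Fin k) d (fun j : Fin L.length => toPt n l (L.get j)))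
        ≤ finrank ℂ (NN (d l + 1) L)

/-- E1E (medium; uses: CRI, BR3, SV.ALR, SV.DIM, SV.MHS). EXPLICIT FORM.
PROOF. `K = {i // i ≠ l}` has `k - 1 ≥ 3` elements, `m = mm n l`, `DD m = 2 + ∑_{i ≠ l} n i = ∑ n i + 1`,
`vv m = ∏_{i ≠ l} (n i + 1)`, `finrank (MultiHom n d) = (d l + 1) ∏_{i ≠ l} (n i + 1)` (MHS, DIM:
`Nat.multichoose (n i + 1) 1 = n i + 1`, `Nat.multichoose 2 (d l) = d l + 1`). ALR: for the two critical
`r` take the points of CRI (`e = d l + 1`, `DD m - 1 = ∑ n i`) and BR3. -/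
def E1E_stmt : Prop :=
  ∀ (k : ℕ) (n : Fin k → ℕ), 4 ≤ k → (∀ i, 1 ≤ n i) → ∀ l : Fin k, n l = 1 →
    ∀ d : Fin k → ℕ, (∀ i, i ≠ l → d i = 1) →
      (∑ i, n i + 1) * (1 + (∑ i, n i + 1) * ∏ i ∈ Finset.univ.erase l, (n i + 1)) ≤ d l →
      ¬ Special n d

/-- The statement needed in Spec3. -/
theorem E1K (h : E1E_stmt) : E1K_stmt := by
  intro k n hk hn l hl
  exact ⟨_, fun d hd he => h k n hk hn l hl d hd he⟩

end Bridge

end Pool.Agent.SVA
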